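import Pool.Agent.TH900.QM.Meas

/-!
# Catalan's constant and `π²`: `8 G + 5 π² / 6` and `8 G - 5 π² / 6` are irrational

`G = ∑ (-1)^j / (2j+1)^2` is Catalan's constant.  In terms of the Hurwitz zeta function the two
numbers are `ζ(2, 1/4) - ζ(2, 1)` and `-(ζ(2, 3/4) - ζ(2, 1))`.
-/

set_option autoImplicit false

namespace Pool.Agent.Results.MP_631c0d_nt.CatalanPlusPiSquared

open Pool.Agent.H397R2.QG Pool.Agent.TH900.QM

/-- Catalan's constant -/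
noncomputable def G : ℝ := ∑' j : ℕ, (-1 : ℝ) ^ j / (2 * (j : ℝ) + 1) ^ 2

/-- an irrationality measure (finite, with the exponent `586`) of the real number `x` -/
def Measure586 (x : ℝ) : Prop :=
  ∃ c : ℝ, 0 < c ∧ ∀ (a : ℤ) (b : ℕ), 0 < b → c / (b : ℝ) ^ 586 ≤ |x - (a : ℝ) / b|

theorem irr_of_measure {x : ℝ} (h : Measure586 x) : Irrational x := by
  rintro ⟨q, rfl⟩
  obtain ⟨c, hc, h⟩ := h
  have h1 := h q.num q.den q.den_pos
  have h2 : ((q : ℚ) : ℝ) = (q.num : ℝ) / (q.den : ℝ) := by exact_mod_cast (Rat.num_div_den q).symm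
  rw [h2, sub_self, abs_zero] at h1
  have h3 : (0 : ℝ) < (q.den : ℝ) := by exact_mod_cast q.den_pos
  have h4 : 0 < c / (q.den : ℝ) ^ 586 := by positivity
  linarith

theorem hurwitz_one :
    (∑' j : ℕ, (1 / ((j : ℝ) + 1 / 4) ^ 2 - 1 / ((j : ℝ) + 1) ^ 2)) = 8 * G + 5 * Real.pi ^ 2 / 6 := by
  have h := Z0_theta1
  unfold theta at h
  have e : Cat = G := rfl
  rw [e] at h
  rw [← h]
  refine tsum_congr fun j => ?_
  norm_num

theorem hurwitz_three :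
    (∑' j : ℕ, (1 / ((j : ℝ) + 3 / 4) ^ 2 - 1 / ((j : ℝ) + 1) ^ 2)) = 5 * Real.pi ^ 2 / 6 - 8 * G := by
  have h := Z0_theta3
  unfold theta at h
  have e : Cat = G := rfl
  rw [e] at h
  rw [← h]
  refine tsum_congr fun j => ?_
  norm_num

/-- The numbers `8 G + 5 π²/6` and `8 G - 5 π²/6` are irrational, with the finite irrationality
measure `586`: `|x - a/b| ≥ c b ^ (-586)` for all integers `a` and `b ≥ 1`.  They are
`∑ (1/(j+1/4)² - 1/(j+1)²)` and `-∑ (1/(j+3/4)² - 1/(j+1)²)`.  In particular `G` is in neither of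
the sets `ℚ + (5/48) π²`, `ℚ - (5/48) π²`. -/
theorem result :
    (Irrational (8 * G + 5 * Real.pi ^ 2 / 6) ∧ Measure586 (8 * G + 5 * Real.pi ^ 2 / 6)) ∧
    (Irrational (8 * G - 5 * Real.pi ^ 2 / 6) ∧ Measure586 (8 * G - 5 * Real.pi ^ 2 / 6)) ∧
    (∑' j : ℕ, (1 / ((j : ℝ) + 1 / 4) ^ 2 - 1 / ((j : ℝ) + 1) ^ 2)) = 8 * G + 5 * Real.pi ^ 2 / 6 ∧
    (∑' j : ℕ, (1 / ((j : ℝ) + 3 / 4) ^ 2 - 1 / ((j : ℝ) + 1) ^ 2)) = 5 * Real.pi ^ 2 / 6 - 8 * G ∧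
    ∀ r : ℚ, G ≠ r + 5 / 48 * Real.pi ^ 2 ∧ G ≠ r - 5 / 48 * Real.pi ^ 2 := by
  have m1 : Measure586 (8 * G + 5 * Real.pi ^ 2 / 6) := by
    obtain ⟨c, hc, h⟩ := main 1 (Or.inl rfl)
    refine ⟨c, hc, fun a b hb => ?_⟩
    have h1 := h a b hb
    rw [one_mul] at h1
    exact h1
  have m2 : Measure586 (8 * G - 5 * Real.pi ^ 2 / 6) := by
    obtain ⟨c, hc, h⟩ := main (-1) (Or.inr rfl)
    refine ⟨c, hc, fun a b hb => ?_⟩
    have h1 := h a b hb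
    have e : 8 * Cat + (-1) * (5 * Real.pi ^ 2 / 6) = 8 * G - 5 * Real.pi ^ 2 / 6 := by
      have e1 : Cat = G := rfl
      rw [e1]; ring
    rw [e] at h1
    exact h1
  refine ⟨⟨irr_of_measure m1, m1⟩, ⟨irr_of_measure m2, m2⟩, hurwitz_one, hurwitz_three, ?_⟩
  intro r
  constructor
  · intro h
    apply irr_of_measure m2
    refine ⟨8 * r, ?_⟩
    rw [h]; push_cast; ring
  · intro h
    apply irr_of_measure m1
    refine ⟨8 * r, ?_⟩
    rw [h]; push_cast; ring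

end Pool.Agent.Results.MP_631c0d_nt.CatalanPlusPiSquared
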